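import Pool.Agent.Results.MP_553913_nt.DerivativesDensity

/-!
# The heat flow of the L-functions of elliptic curves: almost all zeros are simple and on the line

`E : y² = x³ + a x + b` is an elliptic curve over `ℚ` of conductor `N` and `Λ` its completed L-function.
Let `Λ_t = e^{t D²} Λ` (`D = d/ds`) be the heat flow of `Λ`.  The Riemann hypothesis for `E` says that all
zeros of `Λ` are on the line `Re s = 1`; it is equivalent to the same statement for all `Λ_t`, `t > 0`
(de Bruijn, Newman), and for `t > 0` it implies that the zeros of `Λ_t` are simple.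

We prove unconditionally, for every `E`: there are constants `c, C > 0` such that for all `0 < t ≤ 1/8` and
all `T ≥ 2` the proportion of the zeros of `Λ_t` with imaginary part in `(T, 2T]` which are off the line
`Re s = 1` or multiple is at most `C exp (-c t log² T)`, and their number is at most
`C exp (-c t log² T) T log T`.  So almost all zeros of `Λ_t` are simple and on the line as soon as the time
`t` is large compared with the square of the mean spacing of the zeros at the height `T`, and if `t` is
larger than a multiple of `log log T` times this square there are only `O(T / log^A T)` exceptions.  (For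
`t` larger than a multiple of the mean spacing there are none at all, by the starting result
`NewmanConductor`.)

The general theory is project GD2 of helper671 (modules `Pool.Agent.Y671`, with helpers 46, 67, 157, 175,
180, 228, 275, 285, 287, 317, 412, 423, 494, 660, 771, 809 and others; the mollified mean values are based on
the shifted convolution sums of the newform by Jutila's circle method); here its theorem on the heat flow
(`Pool.Agent.Y671.GL.countH_shift`) is applied to elliptic curves.
-/

set_option autoImplicit false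

open Complex UpperHalfPlane MatrixGroups CongruenceSubgroup

namespace Pool.Agent.Results.MP_553913_nt.HeatFlowDensity

open Pool.Agent.Results.MP_553913_nt.DerivativesDensity (coef IsFormOf IsCompleted)

/-- The heat flow `Λ_t = e^{t D²} Λ` (`D = d/ds`) as a Gaussian average:
`Λ_t(s) = π^(-1/2) ∫ exp (-v²) Λ(s + 2 √t v) dv`. -/
noncomputable def heat (t : ℝ) (Λ : ℂ → ℂ) (s : ℂ) : ℂ :=
  ((1 / Real.sqrt Real.pi : ℝ) : ℂ) *
    ∫ v : ℝ, ((Real.exp (-v ^ 2) : ℝ) : ℂ) * Λ (s + ((2 * Real.sqrt t * v : ℝ) : ℂ))

/-- The zeros of `Λ_t` with imaginary part in `(T, 2T]`. -/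
def Zer (Λ : ℂ → ℂ) (t T : ℝ) : Set ℂ := {s | heat t Λ s = 0 ∧ T < s.im ∧ s.im ≤ 2 * T}

/-- The exceptional ones: off the line `Re s = 1`, or multiple. -/
def Exc (Λ : ℂ → ℂ) (t T : ℝ) : Set ℂ :=
  {s | s ∈ Zer Λ t T ∧ (s.re ≠ 1 ∨ deriv (heat t Λ) s = 0)}

/-- The number of points of `A`, each counted with its multiplicity as a zero of `Λ_t`. -/
noncomputable def num (Λ : ℂ → ℂ) (t : ℝ) (A : Set ℂ) : ℕ :=
  ∑ᶠ s ∈ A, analyticOrderNatAt (heat t Λ) s

/-- **Main theorem.** Let `E : y² = x³ + a x + b` be an elliptic curve over `ℚ`, and `Λ` its completed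
L-function. There are `c, C > 0` such that for `0 < t ≤ 1/8`, `T ≥ 2` at most the proportion
`C exp (-c t log² T)` of the zeros of the heat flow `Λ_t` with imaginary part in `(T, 2T]`, counted with
multiplicity, are off the line `Re s = 1` or multiple; and the number of the exceptional zeros is at most
`C exp (-c t log² T) T log T`. -/
theorem result (a b : ℤ) (N : ℕ) [NeZero N] (f : CuspForm (Gamma0 N : Subgroup (GL (Fin 2) ℝ)) 2) (w : ℝ)
    (_ : 4 * a ^ 3 + 27 * b ^ 2 ≠ 0) (hf : IsFormOf a b N f w) :
    ∃ Λ : ℂ → ℂ, IsCompleted f Λ ∧ (∀ Λ', IsCompleted f Λ' → Λ' = Λ) ∧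
      (∀ s : ℂ, Λ (2 - s) = (w : ℂ) * Λ s) ∧
      (∀ t T : ℝ, 0 ≤ t → (Zer Λ t T).Finite) ∧
      ∃ c C : ℝ, 0 < c ∧ 0 < C ∧ ∀ t T : ℝ, 0 < t → t ≤ 1 / 8 → 2 ≤ T →
        (num Λ t (Exc Λ t T) : ℝ) ≤
          C * Real.exp (-(c * t * Real.log T ^ 2)) * num Λ t (Zer Λ t T) ∧
        (num Λ t (Exc Λ t T) : ℝ) ≤
          C * Real.exp (-(c * t * Real.log T ^ 2)) * T * Real.log T := by
  have hf' : Pool.Agent.W169.HF.IsForm N f w :=
    { one := hf.one
      real := hf.real
      mul := hf.mul
      pow := hf.pow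
      sign := hf.sign
      fricke := hf.fricke
      good := hf.good
      bad := fun p hp hpN => by
        have h1 : (1 : ℝ) ≤ Real.sqrt p := by
          rw [Real.one_le_sqrt]
          exact_mod_cast hp.one_le
        have h2 : ‖coef f p‖ ≤ 1 := by
          rcases hf.bad p hp hpN with h | h | h <;> simp [h]
        exact h2.trans h1 }
  obtain ⟨Λ, hΛ, hfe, -, -⟩ := Pool.Agent.W174.HF.nf1 N f w hf'
  obtain ⟨u, H, Z, hu, hG, hst, hA, -, hH⟩ := Pool.Agent.Y671.GL.ec_data hf' hΛ
  have e1 : (fun z : ℂ => u * Λ (1 + z)) = fun z => u * Λ (((1 : ℝ) : ℂ) + z) := by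
    funext z
    rw [Complex.ofReal_one]
  have hst' : ∀ s : ℂ, (fun z => u * Λ (((1 : ℝ) : ℂ) + z)) s = 0 → |s.re| ≤ 1 / 2 := by
    rw [← e1]
    exact hst
  rw [e1] at hG hA hH
  obtain ⟨h1, h2⟩ := Pool.Agent.Y671.GL.countH_shift (by norm_num) (by norm_num) hu hG hA hst' hH
  exact ⟨Λ, hΛ, fun Λ' h' => Pool.Agent.W169.HF.completed_unique h' hΛ, hfe, h1, h2⟩

end Pool.Agent.Results.MP_553913_nt.HeatFlowDensity
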