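import Pool.Agent.Results.MP_553913_nt.DerivativesDensity
import Pool.Agent.Y771.NF.Dn
import Pool.Agent.X284.HG.Lf

/-!
# The Riemann hypothesis for elliptic curves and growth on horizontal lines

`E : y² = x³ + a x + b` is an elliptic curve over `ℚ` of conductor `N` and `Λ` its completed L-function.
The Riemann hypothesis for `E` holds if and only if on EVERY horizontal line the modulus of `Λ` increases
strictly when one moves away from the critical line: for every `t ≥ 0` the function
`x ↦ |Λ(1 + x + i t)|` is strictly increasing on `[0, ∞)`.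

We prove this equivalence, and unconditionally, for every `E`, the following: for EVERY `c < 1` there is `C`
such that for all `r ≥ 0`, `T ≥ 2` the set of the heights `t` in `[0, T]` at which the function
`x ↦ |Λ(1 + x + i t)|` is NOT strictly increasing on the half line `x ≥ r / log T` has measure at most
`C e^(-c r) T`.  So at almost all heights the modulus of the L-function increases strictly from a distance
`r / log T` of the critical line on, `r → ∞` arbitrarily slowly (the mean spacing of the zeros is of size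
`1 / log T`), and the proportion of the bad heights decreases exponentially with `r`.

For the Ramanujan Xi function this is the starting result `HorizontalGrowth` of MP_cd509c_nt, whose proof
uses that `Δ` is positive on the imaginary axis and that its Xi function is even without real zeros
(modules `Pool.Agent.Y22.RX`).  The L-function of an elliptic curve may vanish at the central point and on the
real line, and may be odd.  Here (modules `Pool.Agent.X284.HG`) the growth lemma is proved for all entire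
functions of genus one which are symmetric about the imaginary axis, without any condition on the
central point or on the real zeros: the square of the function is a limit of polynomials symmetric about
this axis, whose zeros are those of the function or lie on the axis (Hadamard factorisation of
`Pool.Agent.Y275.GL`).  The number of zeros at a distance at least `δ` from the line is bounded by
`C T^(1 - c δ) log T`, every `c < 1`, by the density theorem of helper24 and the mollified second moment of
project GD2 of helper671 (`Pool.Agent.Y24.GL`, `Pool.Agent.Y671.GL`, `Pool.Agent.Y771.NF`).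
-/

set_option autoImplicit false

open Complex UpperHalfPlane MatrixGroups CongruenceSubgroup
open scoped ComplexConjugate

namespace Pool.Agent.Results.MP_553913_nt.HorizontalGrowth

open Pool.Agent.Results.MP_553913_nt.DerivativesDensity (coef IsFormOf IsCompleted)

/-- The heights `t` in `[0, T]` at which `x ↦ |Λ(1 + x + i t)|` is not strictly increasing for
`x ≥ h`. -/
def Bad (Λ : ℂ → ℂ) (h T : ℝ) : Set ℝ :=
  {t : ℝ | 0 ≤ t ∧ t ≤ T ∧ ¬ StrictMonoOn (fun x : ℝ => ‖Λ (1 + x + t * Complex.I)‖) (Set.Ici h)}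

theorem bad_eq {Λ X : ℂ → ℂ} {u : ℂ} (hu : u ≠ 0) (hX : ∀ z : ℂ, X z = u * Λ (1 + z)) (h T : ℝ) :
    Bad Λ h T = Pool.Agent.X284.HG.Bad X h T := by
  have hn : 0 < ‖u‖ := norm_pos_iff.2 hu
  have e : ∀ x t : ℝ, ‖X (x + t * Complex.I)‖ = ‖u‖ * ‖Λ (1 + x + t * Complex.I)‖ := by
    intro x t
    rw [hX, norm_mul, add_assoc]
  have key : ∀ t : ℝ, StrictMonoOn (fun x : ℝ => ‖Λ (1 + x + t * Complex.I)‖) (Set.Ici h) ↔
      StrictMonoOn (fun x : ℝ => ‖X (x + t * Complex.I)‖) (Set.Ici h) := by
    intro t
    constructor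
    · intro hm x hx y hy hxy
      have h1 := hm hx hy hxy
      simp only [e] at h1 ⊢
      exact mul_lt_mul_of_pos_left h1 hn
    · intro hm x hx y hy hxy
      have h1 := hm hx hy hxy
      simp only [e] at h1 ⊢
      exact lt_of_mul_lt_mul_left h1 hn.le
  unfold Bad Pool.Agent.X284.HG.Bad
  simp only [key]

/-- **Main theorem.** Let `E : y² = x³ + a x + b` be an elliptic curve over `ℚ`, and `Λ` its completed
L-function. The Riemann hypothesis for `E` holds if and only if for every `t ≥ 0` the function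
`x ↦ |Λ(1 + x + i t)|` is strictly increasing on `[0, ∞)`. For every `c < 1` there is `C` such that for all
`r ≥ 0` and `T ≥ 2` the measure of the set of the `t` in `[0, T]` for which this function is not strictly
increasing on `[r / log T, ∞)` is at most `C e^(-c r) T`. -/
theorem result (a b : ℤ) (N : ℕ) [NeZero N] (f : CuspForm (Gamma0 N : Subgroup (GL (Fin 2) ℝ)) 2) (w : ℝ)
    (_ : 4 * a ^ 3 + 27 * b ^ 2 ≠ 0) (hf : IsFormOf a b N f w) :
    ∃ Λ : ℂ → ℂ, IsCompleted f Λ ∧ (∀ Λ', IsCompleted f Λ' → Λ' = Λ) ∧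
      (∀ s : ℂ, Λ (2 - s) = (w : ℂ) * Λ s) ∧
      ((∀ s : ℂ, Λ s = 0 → s.re = 1) ↔ ∀ T : ℝ, Bad Λ 0 T = ∅) ∧
      ∀ c : ℝ, c < 1 → ∃ C : ℝ, 0 < C ∧ ∀ r T : ℝ, 0 ≤ r → 2 ≤ T →
        MeasureTheory.volume (Bad Λ (r / Real.log T) T) ≤
          ENNReal.ofReal (C * Real.exp (-(c * r)) * T) := by
  have hf' : Pool.Agent.W169.HF.IsForm N f w :=
    { one := hf.one
      real := hf.real
      mul := hf.mul
      pow := hf.pow
      sign := hf.sign
      fricke := hf.fricke
      good := hf.good
      bad := fun p hp hpN => by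
        have h1 : (1 : ℝ) ≤ Real.sqrt p := by
          rw [Real.one_le_sqrt]
          exact_mod_cast hp.one_le
        have h2 : ‖coef f p‖ ≤ 1 := by
          rcases hf.bad p hp hpN with h | h | h <;> simp [h]
        exact h2.trans h1 }
  obtain ⟨Λ, hΛ, hfe, hconj, -⟩ := Pool.Agent.W174.HF.nf1 N f w hf'
  have hnf := Pool.Agent.Y671.GL.newf_of_form hf'
  have hc2 : Pool.Agent.W169.HF.IsCompleted f
      (Pool.Agent.Y771.NF.Lam (k := 2)
        (f : CuspForm (Gamma0 N : Subgroup (GL (Fin 2) ℝ)) ((2 : ℕ) : ℤ))) :=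
    ⟨Pool.Agent.Y771.NF.Lam_diff (k := 2) (by norm_num) hnf, fun s hs =>
      Pool.Agent.Y771.NF.Lam_ser (k := 2) (by norm_num) hnf s (by norm_num; exact hs)⟩
  have hLam : Pool.Agent.Y771.NF.Lam (k := 2)
      (f : CuspForm (Gamma0 N : Subgroup (GL (Fin 2) ℝ)) ((2 : ℕ) : ℤ)) = Λ :=
    Pool.Agent.W169.HF.completed_unique hc2 hΛ
  obtain ⟨u, hu, hue⟩ := Pool.Agent.Y771.NF.exists_unit hnf
  obtain ⟨Z, hFE, hL⟩ := Pool.Agent.Y671.GL.exists_Z (k := 2) (by norm_num) hnf
  have hD := Pool.Agent.Y771.NF.ldata (k := 2) (by norm_num) hnf hu hue hFE hL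
  have hF := Pool.Agent.Y771.NF.frm_newf (k := 2) (by norm_num) hnf
  have hlfn := Pool.Agent.Y24.GL.lfn_of (k := 2) (by norm_num) hFE hF
    (fun n => Pool.Agent.Y771.NF.conj_lm n) hL
  have hXe : ∀ z : ℂ, Pool.Agent.Y771.NF.Xf (k := 2)
      (f : CuspForm (Gamma0 N : Subgroup (GL (Fin 2) ℝ)) ((2 : ℕ) : ℤ)) u z = u * Λ (1 + z) := by
    intro z
    unfold Pool.Agent.Y771.NF.Xf
    rw [hLam]
    congr 2
    norm_num
  have hap := Pool.Agent.X284.HG.ap_L (by norm_num) hF hL hD
  refine ⟨Λ, hΛ, fun Λ' h' => Pool.Agent.W169.HF.completed_unique h' hΛ, hfe, ⟨?_, ?_⟩, fun c hc => ?_⟩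
  · intro hRH T
    rw [Set.eq_empty_iff_forall_notMem]
    intro t ht
    rw [bad_eq hu hXe] at ht
    obtain ⟨-, -, ht⟩ := ht
    apply ht
    refine hap.strict le_rfl fun z hz h0 => ?_
    exfalso
    rw [hXe] at hz
    have h1 := hRH _ ((mul_eq_zero.1 hz).resolve_left hu)
    have h2 : (1 + z : ℂ).re = 1 + z.re := by simp
    rw [h2] at h1
    have h3 : z.re = 0 := by linarith
    rw [h3, abs_zero] at h0
    exact lt_irrefl _ h0
  · intro hB s hs
    by_contra hne
    -- a zero with `Re > 1` and `Im ≥ 0`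
    obtain ⟨s1, h1, h2⟩ : ∃ s1 : ℂ, Λ s1 = 0 ∧ 1 < s1.re := by
      rcases lt_or_gt_of_ne hne with h | h
      · refine ⟨2 - s, by rw [hfe, hs, mul_zero], ?_⟩
        have : (2 - s : ℂ).re = 2 - s.re := by simp
        rw [this]; linarith
      · exact ⟨s, hs, h⟩
    obtain ⟨s2, h3, h4, h5⟩ : ∃ s2 : ℂ, Λ s2 = 0 ∧ 1 < s2.re ∧ 0 ≤ s2.im := by
      rcases le_or_gt 0 s1.im with h | h
      · exact ⟨s1, h1, h2, h⟩
      · refine ⟨conj s1, by rw [hconj, h1, map_zero], by simpa using h2, by simp; exact h.le⟩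
    have h6 : s2.im ∉ Bad Λ 0 s2.im := by rw [hB s2.im]; exact Set.notMem_empty _
    apply h6
    refine ⟨h5, le_rfl, fun hm => ?_⟩
    have h7 := hm (show (0 : ℝ) ∈ Set.Ici (0 : ℝ) from Set.mem_Ici.2 le_rfl)
      (show s2.re - 1 ∈ Set.Ici (0 : ℝ) from by rw [Set.mem_Ici]; linarith) (by linarith)
    have h8 : (1 + ((s2.re - 1 : ℝ) : ℂ) + (s2.im : ℂ) * Complex.I) = s2 := by
      apply Complex.ext <;> simp
    simp only [h8, h3, norm_zero] at h7
    exact absurd h7 (not_lt.mpr (norm_nonneg _))
  · obtain ⟨C, hC, h⟩ := Pool.Agent.X284.HG.grow_L (by norm_num) hF hL hD hlfn hc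
    refine ⟨C, hC, fun r T hr hT => ?_⟩
    rw [bad_eq hu hXe]
    exact h r T hr hT

end Pool.Agent.Results.MP_553913_nt.HorizontalGrowth
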