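import Pool.Agent.X305.Li.Hk
import Pool.Agent.H128R3.EC.NF

/-!
# MP_553913_nt: the Riemann hypothesis for L(E, s) and Li coefficients along sparse sets of indices

Let `f ∈ S_2(Γ_0(N))` be a normalized cusp form with real coefficients and root number `ε`, and `Λ` its
completed L-function. By the modularity theorem the L-function of every elliptic curve over `ℚ` of
conductor `N` is `L(f, s)` for such an `f`. For `a > 0` the map `z ↦ 1 + a (1 + z) / (1 - z)` sends the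
unit disc to the half-plane `Re s > 1` and `0` to `1 + a`. The Li coefficients are
`λ_n(a) = ∑ (1 - ((ρ - 1 - a) / (ρ - 1 + a)) ^ n)`, over the zeros `ρ` of `Λ`, that is the coefficients
of the logarithmic derivative of `Λ(1 + a (1 + z) / (1 - z))` at `z = 0`. (`a = 1/2` is the usual
normalization.) By Li (1997), Bombieri and Lagarias (1999), Lagarias (2007) all zeros are on the line
`Re s = 1` if and only if `λ_n ≥ 0` for all `n`.

Call `S` a set of Bohr recurrence if for all real `θ_1, ..., θ_k` and `ε > 0` there is a positive `n`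
in `S` such that all `n θ_j` are at distance less than `ε` from the integers, for instance the squares,
the differences of the elements of an infinite set, and sets which contain arbitrarily long intervals.
We prove that for all such sets `S`:

* all zeros are on the line `Re s = 1` if and only if `λ_n(a) ≥ 0` for all positive `n ∈ S`;
* all zeros satisfy `|(ρ - 1 - a) / (ρ - 1 + a)| ≥ exp (-κ)` if and only if
  `λ_n(a) ≥ - C(δ) exp ((κ + δ) n)` for all `n ∈ S` and all `δ > 0`;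
* a zero `ρ` with `Re ρ > 1` gives `r ≤ |(ρ - 1 - a) / (ρ - 1 + a)| < 1` and infinitely many `n ∈ S`
  with `λ_n(a) ≤ - r ^ (-n) / 8`.

If all zeros are on the line then `λ_n(a) ≥ 2 R` for all odd `n` and all `a > 0`, where `R` is the
order of vanishing at `s = 1` (the analytic rank).

The set `S` is used as follows: by the Hadamard factorization the zeros off the line which are nearest
to `1 + a` in the coordinate `z` are finitely many, and their contribution is a sum of cosines with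
equal amplitudes, which is maximal at simultaneous near returns.
-/

set_option autoImplicit false

namespace Pool.Agent.Results.MP_553913_nt.LiAlongSparseSets

open Complex UpperHalfPlane MatrixGroups CongruenceSubgroup

/-- `f` has real Fourier coefficients `a(n)` with `a(1) = 1` and satisfies
`f(-1/(Nτ)) = -ε N τ² f(τ)`, where `ε = ± 1` is the root number. -/
structure IsNormalized (N : ℕ) (f : CuspForm (Gamma0 N : Subgroup (GL (Fin 2) ℝ)) 2) (ε : ℝ) : Prop where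
  one : (qExpansion 1 f).coeff 1 = 1
  real : ∀ n, ((qExpansion 1 f).coeff n).im = 0
  sign : ε = 1 ∨ ε = -1
  fricke : ∀ τ τ' : ℍ, (τ' : ℂ) * ((N : ℂ) * (τ : ℂ)) = -1 →
    f τ' = -(ε : ℂ) * (N : ℂ) * (τ : ℂ) ^ 2 * f τ

/-- `Λ` is the completed L-function of `f`: it is entire and
`Λ(s) = N^(s/2) (2π)^(-s) Γ(s) ∑ a(n) n^(-s)` for `Re s > 2`. -/
def IsCompleted (N : ℕ) (f : CuspForm (Gamma0 N : Subgroup (GL (Fin 2) ℝ)) 2) (Λ : ℂ → ℂ) : Prop :=
  Differentiable ℂ Λ ∧ ∀ s : ℂ, 2 < s.re →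
    Λ s = ((Real.sqrt N / (2 * Real.pi) : ℝ) : ℂ) ^ s * Complex.Gamma s *
      ∑' n : ℕ, (qExpansion 1 f).coeff (n + 1) * ((n + 1 : ℕ) : ℂ) ^ (-s)

/-- Li's coefficient `λ_n(a)` of `Λ`, for `n ≥ 1`: the coefficient of `z ^ (n - 1)` in the Taylor
series at `0` of the logarithmic derivative of `Λ (1 + a (1 + z) / (1 - z))`. -/
noncomputable def li (Λ : ℂ → ℂ) (a : ℝ) (n : ℕ) : ℝ :=
  (iteratedDeriv (n - 1) (logDeriv fun z => Λ (1 + a * ((1 + z) / (1 - z)))) 0 /
    ((n - 1).factorial : ℂ)).re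

/-- For all real `θ_1, ..., θ_k` and `ε > 0` there is a positive `n ∈ S` such that all `n θ_j` are at
distance less than `ε` from the integers. -/
def BohrRecurrent (S : Set ℕ) : Prop := ∀ (k : ℕ) (θ : Fin k → ℝ) (ε : ℝ), 0 < ε →
  ∃ n ∈ S, 0 < n ∧ ∀ j, |n * θ j - round (n * θ j)| < ε

theorem result (N : ℕ) [NeZero N] (f : CuspForm (Gamma0 N : Subgroup (GL (Fin 2) ℝ)) 2) (ε : ℝ)
    (hf : IsNormalized N f ε) :
    ∃ Λ : ℂ → ℂ, IsCompleted N f Λ ∧ (∀ s : ℂ, Λ (2 - s) = ε * Λ s) ∧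
      (∀ a : ℝ, 0 < a → Λ (1 + a) ≠ 0 → ∀ S : Set ℕ, BohrRecurrent S →
        ((∀ s : ℂ, Λ s = 0 → s.re = 1) ↔ ∀ n ∈ S, 0 < n → 0 ≤ li Λ a n) ∧
        (∀ κ : ℝ, 0 ≤ κ →
          ((∀ s : ℂ, Λ s = 0 → Real.exp (-κ) ≤ ‖(s - 1 - a) / (s - 1 + a)‖) ↔
            ∀ δ : ℝ, 0 < δ → ∃ C : ℝ, ∀ n ∈ S, -(C * Real.exp ((κ + δ) * n)) ≤ li Λ a n)) ∧
        (∀ s : ℂ, Λ s = 0 → 1 < s.re →
          ∃ r : ℝ, 0 < r ∧ r ≤ ‖(s - 1 - a) / (s - 1 + a)‖ ∧ ‖(s - 1 - a) / (s - 1 + a)‖ < 1 ∧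
            ∀ M : ℕ, ∃ n ∈ S, M ≤ n ∧ 0 < n ∧ li Λ a n ≤ -(1 / 8 * (r⁻¹) ^ n))) ∧
      ((∀ s : ℂ, Λ s = 0 → s.re = 1) → ∃ R : ℕ, analyticOrderAt Λ 1 = (R : ℕ∞) ∧
        ∀ a : ℝ, 0 < a → ∀ n : ℕ, Odd n → 2 * (R : ℝ) ≤ li Λ a n) := by
  have hf' : Pool.Agent.H128R3.EC.IsNorm N f ε := ⟨hf.one, hf.real, hf.sign, hf.fricke⟩
  obtain ⟨B, hH⟩ := Pool.Agent.H128R3.EC.nf_isHk f hf'
  set H := Pool.Agent.H128R3.EC.nfHk N f B ε with hHdef
  obtain ⟨F, hF⟩ := X305.Li.completed_hk hH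
  set Λ : ℂ → ℂ := mellin (fun y : ℝ => ((H.φ y : ℝ) : ℂ)) with hΛ
  have hk1 : H.k / 2 = 1 := by
    show (2 : ℝ) / 2 = 1
    norm_num
  have hk2 : (H.k : ℂ) = 2 := by
    show ((2 : ℝ) : ℂ) = 2
    norm_num
  rw [hk1] at hF
  have hli : ∀ a n, X305.Li.lic Λ 1 a n = li Λ a n := by
    intro a n
    unfold X305.Li.lic li
    rw [Complex.ofReal_one]
  have hpr : (-1 : ℂ) ^ Pool.Agent.H128R3.GJB.pr H = ε := by
    have hε : H.ε = ε := rfl
    unfold Pool.Agent.H128R3.GJB.pr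
    rw [hε]
    rcases hf.sign with h | h
    · rw [if_pos h, h]
      norm_num
    · rw [if_neg (by rw [h]; norm_num), h]
      norm_num
  refine ⟨Λ, ⟨Pool.Agent.H128R3.GJB.mellin_diff hH, fun s hs =>
    Pool.Agent.H128R3.EC.nf_dir f hf' hH s hs⟩, ?_, ?_, ?_⟩
  · intro s
    have h1 := Pool.Agent.H128R3.GJB.mellin_fe hH s
    rw [hk2, hpr] at h1
    exact h1
  · intro a ha hΛa S hS
    have hΛa' : Λ (((1 : ℝ) : ℂ) + a) ≠ 0 := by rwa [Complex.ofReal_one]
    refine ⟨?_, ?_, ?_⟩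
    · have h := hF.criterion ha hΛa' hS
      simpa only [hli] using h
    · intro κ hκ
      have h := hF.exponents ha hΛa' hS hκ
      simpa only [hli, Complex.ofReal_one] using h
    · intro s hs hre
      have hre' : 0 < (s - 1).re := by
        rw [Complex.sub_re, Complex.one_re]
        linarith
      obtain ⟨r, hr0, hr1, hr⟩ := hF.neg ha hΛa' hre' (by
        rw [Complex.ofReal_one, add_sub_cancel]
        exact hs) hS
      refine ⟨r, hr0, hr1, X305.Li.norm_cay_lt ha hre', fun M => ?_⟩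
      obtain ⟨n, h1, h2, h3, h4⟩ := hr M
      exact ⟨n, h1, h2, h3, by rw [← hli]; exact h4⟩
  · intro hRH
    obtain ⟨R, hR, -⟩ := hF.nonneg hRH one_pos
    rw [Complex.ofReal_one] at hR
    refine ⟨R, hR, fun a ha n hn => ?_⟩
    obtain ⟨R', hR', h1⟩ := hF.nonneg hRH ha
    rw [Complex.ofReal_one, hR] at hR'
    have hRR : R = R' := by exact_mod_cast hR'
    have h2 := h1 n
    rw [hli, ← hRR] at h2
    obtain ⟨k, hk⟩ := hn
    have h3 : (-1 : ℝ) ^ (n - 1) = 1 := by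
      rw [hk, Nat.add_sub_cancel, pow_mul]
      norm_num
    rw [h3] at h2
    linarith

end Pool.Agent.Results.MP_553913_nt.LiAlongSparseSets
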