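import Pool.Agent.Results.MP_553913_nt.DerivativesDensity
import Pool.Agent.Y771.NF.Dn

/-!
# Zeros of L-functions of elliptic curves off the critical line: a density theorem

`E : y² = x³ + a x + b` is an elliptic curve over `ℚ` of conductor `N` and `Λ` its completed L-function.
The Riemann hypothesis for `E` says that all zeros of `Λ` are on the line `Re s = 1`.  We prove
unconditionally, for every `E` and for EVERY `c < 1`: the number of zeros of `Λ` with imaginary part in
`(0, T]` and distance at least `δ` from the line `Re s = 1`, counted with multiplicity, is at most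
`C T^(1 - c δ) log T`, for all `δ ≥ 0` and all `T ≥ 2`.  In particular the number of those at distance at
least `h / log T` is at most `C e^(-c h) T log T`, uniformly in `h ≥ 0`: almost all zeros are at a distance
`O(1 / log T)`, with an exponential decay of rate `c` for every `c < 1`.

The proof is the density theorem of helper24 for L-functions given by axioms (modules
`Pool.Agent.Y24.GL`), which rests on the mollified second moment of project GD2 of helper671
(shifted convolution sums by Jutila's circle method); the axioms are verified for all newforms of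
trivial character with real coefficients in `Pool.Agent.Y771.NF` and `Pool.Agent.Y771.GL`
(theorem `Pool.Agent.Y771.NF.off`, so far used only for the Ramanujan Xi function); here it is applied
to the newforms of elliptic curves.
-/

set_option autoImplicit false

open Complex UpperHalfPlane MatrixGroups CongruenceSubgroup

namespace Pool.Agent.Results.MP_553913_nt.ZeroDensity

open Pool.Agent.Results.MP_553913_nt.DerivativesDensity (coef IsFormOf IsCompleted)

/-- The zeros of `Λ` with imaginary part in `(0, T]` and distance at least `δ` from the line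
`Re s = 1`. -/
def Off (Λ : ℂ → ℂ) (δ T : ℝ) : Set ℂ := {s | Λ s = 0 ∧ δ ≤ |s.re - 1| ∧ 0 < s.im ∧ s.im ≤ T}

/-- The number of points of `A`, each counted with its multiplicity as a zero of `Λ`. -/
noncomputable def num (Λ : ℂ → ℂ) (A : Set ℂ) : ℕ := ∑ᶠ s ∈ A, analyticOrderNatAt Λ s

/-- the order of a zero is not changed by the rotation `z ↦ 1 + i z` -/
theorem order_rot (Λ : ℂ → ℂ) (z : ℂ) :
    analyticOrderNatAt (fun z => Λ (1 + Complex.I * z)) z = analyticOrderNatAt Λ (1 + Complex.I * z) := by
  have h1 : AnalyticAt ℂ (fun z : ℂ => 1 + Complex.I * z) z :=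
    analyticAt_const.add (analyticAt_const.mul analyticAt_id)
  have h2 : HasDerivAt (fun z : ℂ => 1 + Complex.I * z) (Complex.I * 1) z :=
    ((hasDerivAt_id z).const_mul Complex.I).const_add 1
  have h3 : deriv (fun z : ℂ => 1 + Complex.I * z) z ≠ 0 := by
    rw [h2.deriv, mul_one]
    exact Complex.I_ne_zero
  have h4 := analyticOrderAt_comp_of_deriv_ne_zero (f := Λ) h1 h3
  unfold analyticOrderNatAt
  rw [← h4]
  rfl

/-- counting is not changed by the rotation `z ↦ 1 + i z` -/
theorem off_rot (Λ : ℂ → ℂ) (δ T : ℝ) :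
    Off Λ δ T = (fun z => 1 + Complex.I * z) '' {z : ℂ | Λ (1 + Complex.I * z) = 0 ∧ δ ≤ |z.im| ∧
      0 < z.re ∧ z.re ≤ T} := by
  ext s
  constructor
  · rintro ⟨h1, h2, h3, h4⟩
    have e : 1 + Complex.I * (-Complex.I * (s - 1)) = s := by
      have := Complex.I_mul_I
      linear_combination (-(s - 1)) * this
    refine ⟨-Complex.I * (s - 1), ⟨?_, ?_, ?_, ?_⟩, e⟩
    · rw [e, h1]
    · have : (-Complex.I * (s - 1)).im = -(s.re - 1) := by simp
      rw [this, abs_neg]
      exact h2
    · have : (-Complex.I * (s - 1)).re = s.im := by simp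
      rw [this]
      exact h3
    · have : (-Complex.I * (s - 1)).re = s.im := by simp
      rw [this]
      exact h4
  · rintro ⟨z, ⟨h1, h2, h3, h4⟩, rfl⟩
    have hre : (1 + Complex.I * z).re - 1 = -z.im := by simp
    have him : (1 + Complex.I * z).im = z.re := by simp
    refine ⟨h1, ?_, ?_, ?_⟩
    · rw [hre, abs_neg]
      exact h2
    · rw [him]
      exact h3
    · rw [him]
      exact h4

theorem num_rot (Λ : ℂ → ℂ) (δ T : ℝ) :
    num Λ (Off Λ δ T) = ∑ᶠ z ∈ {z : ℂ | Λ (1 + Complex.I * z) = 0 ∧ δ ≤ |z.im| ∧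
      0 < z.re ∧ z.re ≤ T}, analyticOrderNatAt (fun z => Λ (1 + Complex.I * z)) z := by
  unfold num
  rw [off_rot, finsum_mem_image]
  · exact finsum_mem_congr rfl fun z _ => (order_rot Λ z).symm
  · intro x _ y _ h
    exact mul_left_cancel₀ Complex.I_ne_zero (add_left_cancel h)

/-- **Main theorem.** Let `E : y² = x³ + a x + b` be an elliptic curve over `ℚ`, and `Λ` its completed
L-function. For every `c < 1` there is `C` such that for all `δ ≥ 0` and `T ≥ 2` the number of zeros of
`Λ` with imaginary part in `(0, T]` and distance at least `δ` from the line `Re s = 1`, counted with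
multiplicity, is at most `C T^(1 - c δ) log T`. -/
theorem result (a b : ℤ) (N : ℕ) [NeZero N] (f : CuspForm (Gamma0 N : Subgroup (GL (Fin 2) ℝ)) 2) (w : ℝ)
    (_ : 4 * a ^ 3 + 27 * b ^ 2 ≠ 0) (hf : IsFormOf a b N f w) :
    ∃ Λ : ℂ → ℂ, IsCompleted f Λ ∧ (∀ Λ', IsCompleted f Λ' → Λ' = Λ) ∧
      (∀ s : ℂ, Λ (2 - s) = (w : ℂ) * Λ s) ∧
      ∀ c : ℝ, c < 1 → ∃ C : ℝ, 0 < C ∧ ∀ δ T : ℝ, 0 ≤ δ → 2 ≤ T →
        (Off Λ δ T).Finite ∧ (num Λ (Off Λ δ T) : ℝ) ≤ C * T ^ (1 - c * δ) * Real.log T := by
  have hf' : Pool.Agent.W169.HF.IsForm N f w :=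
    { one := hf.one
      real := hf.real
      mul := hf.mul
      pow := hf.pow
      sign := hf.sign
      fricke := hf.fricke
      good := hf.good
      bad := fun p hp hpN => by
        have h1 : (1 : ℝ) ≤ Real.sqrt p := by
          rw [Real.one_le_sqrt]
          exact_mod_cast hp.one_le
        have h2 : ‖coef f p‖ ≤ 1 := by
          rcases hf.bad p hp hpN with h | h | h <;> simp [h]
        exact h2.trans h1 }
  obtain ⟨Λ, hΛ, hfe, -, -⟩ := Pool.Agent.W174.HF.nf1 N f w hf'
  have hnf := Pool.Agent.Y671.GL.newf_of_form hf'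
  have hc2 : Pool.Agent.W169.HF.IsCompleted f
      (Pool.Agent.Y771.NF.Lam (k := 2)
        (f : CuspForm (Gamma0 N : Subgroup (GL (Fin 2) ℝ)) ((2 : ℕ) : ℤ))) :=
    ⟨Pool.Agent.Y771.NF.Lam_diff (k := 2) (by norm_num) hnf, fun s hs =>
      Pool.Agent.Y771.NF.Lam_ser (k := 2) (by norm_num) hnf s (by norm_num; exact hs)⟩
  have hL : Pool.Agent.Y771.NF.Lam (k := 2)
      (f : CuspForm (Gamma0 N : Subgroup (GL (Fin 2) ℝ)) ((2 : ℕ) : ℤ)) = Λ :=
    Pool.Agent.W169.HF.completed_unique hc2 hΛ
  refine ⟨Λ, hΛ, fun Λ' h' => Pool.Agent.W169.HF.completed_unique h' hΛ, hfe, fun c hc => ?_⟩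
  obtain ⟨C, hC, h⟩ := Pool.Agent.Y771.NF.off (k := 2) (by norm_num) hnf
    (fun z => Λ (1 + Complex.I * z)) (fun z => by
      rw [hL]
      congr 2
      norm_num) hc
  refine ⟨C, hC, fun δ T hδ hT => ?_⟩
  obtain ⟨h1, h2⟩ := h δ T hδ hT
  refine ⟨?_, ?_⟩
  · rw [off_rot]
    exact h1.image _
  · rw [num_rot]
    exact h2

end Pool.Agent.Results.MP_553913_nt.ZeroDensity
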